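import Pool.Agent.Y147.FR.Comm3

/-!
# Property (S) and quotients by a finite-dimensional radical: the exact criterion

Let `A` be a Banach algebra and `R` a finite-dimensional ideal, for example the radical. Then
`A / R` has property (S) if and only if `A` has property (S) and every element of `R` in the closure
of `A^2` lies in `A^2`. The second condition can fail for a commutative separable algebra `A` with
property (S) in every dimension of the radical, even if the radical annihilates `A`.
-/

set_option autoImplicit false

namespace Pool.Agent.Results.MP_a0c03c_an.ExactCriterion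

open Pool.Agent.Results.MP_a0c03c_an.FinDimRadical

/-- `B` is the quotient of `A` by the ideal `R`, with the quotient norm: `q` is a surjective
homomorphism with kernel `R` and the norm of `q a` is the distance of `a` to `R`. -/
structure IsQuotient {A B : Type} [NonUnitalNormedRing A] [NormedSpace ℂ A]
    [NonUnitalNormedRing B] [NormedSpace ℂ B] (q : A →ₙₐ[ℂ] B) (R : Submodule ℂ A) : Prop where
  surj : Function.Surjective q
  ker : ∀ a : A, q a = 0 ↔ a ∈ R
  norm : ∀ a : A, ‖q a‖ = Metric.infDist a (R : Set A)

/-- For a Banach algebra `A` and a finite-dimensional ideal `R`, the quotient has property (S) if and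
only if `A` has property (S) and `R ∩ closure (A^2) ⊆ A^2`. -/
def Criterion : Prop :=
  ∀ (A : Type) [NonUnitalNormedRing A] [NormedSpace ℂ A] [IsScalarTower ℂ A A]
    [SMulCommClass ℂ A A] [CompleteSpace A]
    (B : Type) [NonUnitalNormedRing B] [NormedSpace ℂ B] [IsScalarTower ℂ B B]
    [SMulCommClass ℂ B B] [CompleteSpace B] (q : A →ₙₐ[ℂ] B) (R : Submodule ℂ A),
    FiniteDimensional ℂ R → IsQuotient q R →
    (PropertyS B ↔
      PropertyS A ∧ ∀ u ∈ R, u ∈ closure (squareSpan A : Set A) → u ∈ squareSpan A)

/-- There are a commutative separable Banach algebra `A` with property (S) whose radical has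
dimension `k` and annihilates `A`, and its quotient by the radical, which does not have
property (S). -/
def Counterexample (k : ℕ) : Prop :=
  ∃ (A : Type) (_ : NonUnitalNormedRing A) (_ : NormedSpace ℂ A) (_ : IsScalarTower ℂ A A)
    (_ : SMulCommClass ℂ A A) (_ : CompleteSpace A)
    (B : Type) (_ : NonUnitalNormedRing B) (_ : NormedSpace ℂ B) (_ : IsScalarTower ℂ B B)
    (_ : SMulCommClass ℂ B B) (_ : CompleteSpace B) (q : A →ₙₐ[ℂ] B),
    (∀ a b : A, a * b = b * a) ∧ TopologicalSpace.SeparableSpace A ∧
    Module.finrank ℂ (radical A) = k ∧ (∀ r ∈ radical A, ∀ a : A, a * r = 0) ∧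
    IsQuotient q (radical A) ∧ PropertyS A ∧ ¬ PropertyS B

/-- (1) Let `R` be a finite-dimensional ideal of a Banach algebra `A` and let `B` be the quotient of
`A` by `R`. Then `B` has property (S) if and only if `A` has property (S) and
`R ∩ closure (A^2) ⊆ A^2`.

(2) For every `k ≥ 1` there are a commutative separable Banach algebra `A` with property (S) whose
radical has dimension exactly `k` and annihilates `A`, and its quotient `B` by the radical which
does not have property (S). -/
theorem result : Criterion ∧ ∀ k : ℕ, 1 ≤ k → Counterexample k := by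
  refine ⟨?_, fun k hk => ?_⟩
  · intro A _ _ _ _ _ B _ _ _ _ _ q R hfd hq
    constructor
    · intro hB
      exact ⟨Pool.Agent.Y147.FR.char_up q R hq.surj hq.ker hq.norm hB,
        fun u hu hc => Pool.Agent.Y147.FR.char_mp q R hq.surj hq.ker hq.norm hB u hu hc⟩
    · rintro ⟨hA, hc⟩
      exact Pool.Agent.Y147.FR.char_mpr q R hq.surj hq.ker hq.norm hA hc
  · obtain ⟨A, a1, a2, a3, a4, a5, B, b1, b2, b3, b4, b5, q, h1, h2, h3, h4, h5, h6, h7, h8, h9⟩ :=
      Pool.Agent.Y147.FR.comm_all k hk
    exact ⟨A, a1, a2, a3, a4, a5, B, b1, b2, b3, b4, b5, q, h9, h8, h1, h2, ⟨h3, h4, h5⟩, h6, h7⟩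

end Pool.Agent.Results.MP_a0c03c_an.ExactCriterion
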